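import Pool.Agent.Lib.MP_ddf912_lc.Hier.Sys

namespace Pool.Agent.Lib.MP_ddf912_lc.Hier

open Turing N487b59b3 N68a2faeb Pool.Agent.Lib.helper82

def sv (D j b : ℕ) : ℕ := 3 * (D * b + j) + 1
def tv (D j b : ℕ) : ℕ := 3 * (D * b + j) + 2

def tup (D : ℕ) (bs : List ℕ) : ℕ → List (List ℕ)
  | 0 => [[]]
  | j + 1 => bs.flatMap fun b => (tup D bs j).map fun t => sv D j b :: t

def mk (D : ℕ) (δ : ℕ → ℕ) : ℕ → List ℕ
  | 0 => []
  | j + 1 => sv D j (δ j) :: mk D δ j

def chain (D : ℕ) (bs : List ℕ) (j : ℕ) : CNF :=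
  [(tv D j 0, true)] :: [(tv D j bs.length, false)] ::
    bs.map fun b => [(tv D j b, false), (sv D j b, true), (tv D j (b + 1), true)]

def comb (D : ℕ) (φ : CNF) (bs : List ℕ) (pad : List Bool) (S : Slots) : CNF :=
  (φ.map fun C => C.map fun l => (3 * l.1, l.2)) ++ (List.range D).flatMap (chain D bs) ++
    (pad.map fun _ => [(2, true)]) ++
    S.flatMap fun e => e.2.map fun l => (e.1.map fun x => (x, false)) ++ [(3 * l.1, l.2)]

theorem mk_congr {D : ℕ} {δ δ' : ℕ → ℕ} : ∀ j, (∀ i < j, δ i = δ' i) → mk D δ j = mk D δ' j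
  | 0, _ => rfl
  | j + 1, h => by
    rw [mk, mk, h j (by omega), mk_congr j fun i hi => h i (by omega)]

theorem mem_mk {D : ℕ} {δ : ℕ → ℕ} {x : ℕ} : ∀ j, x ∈ mk D δ j ↔ ∃ i < j, x = sv D i (δ i)
  | 0 => by simp [mk]
  | j + 1 => by
    rw [mk, List.mem_cons, mem_mk j]
    constructor
    · rintro (h | ⟨i, h1, h2⟩)
      · exact ⟨j, by omega, h⟩
      · exact ⟨i, by omega, h2⟩
    · rintro ⟨i, h1, h2⟩
      rcases Nat.lt_succ_iff_lt_or_eq.1 h1 with h | rfl
      · exact Or.inr ⟨i, h, h2⟩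
      · exact Or.inl h2

theorem length_mk {D : ℕ} {δ : ℕ → ℕ} : ∀ j, (mk D δ j).length = j
  | 0 => rfl
  | j + 1 => by rw [mk, List.length_cons, length_mk j]

theorem mem_tup {D B : ℕ} : ∀ (j : ℕ) (t : List ℕ),
    t ∈ tup D (List.range B) j ↔ ∃ δ : ℕ → ℕ, (∀ i < j, δ i < B) ∧ t = mk D δ j
  | 0, t => by simp [tup, mk]
  | j + 1, t => by
    simp only [tup, List.mem_flatMap, List.mem_map, List.mem_range]
    constructor
    · rintro ⟨b, hb, t', ht', rfl⟩
      obtain ⟨δ, h1, rfl⟩ := (mem_tup j t').1 ht'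
      refine ⟨Function.update δ j b, fun i hi => ?_, ?_⟩
      · by_cases e : i = j
        · subst e; simpa using hb
        · rw [Function.update_of_ne e]; exact h1 i (by omega)
      · rw [mk, Function.update_self]
        congr 1
        exact mk_congr j fun i hi => by rw [Function.update_of_ne (by omega)]
    · rintro ⟨δ, h1, rfl⟩
      exact ⟨δ j, h1 j (by omega), mk D δ j, (mem_tup j _).2 ⟨δ, fun i hi => h1 i (by omega), rfl⟩,
        rfl⟩

theorem length_tup {D : ℕ} {bs : List ℕ} : ∀ j, (tup D bs j).length = bs.length ^ j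
  | 0 => rfl
  | j + 1 => by
    simp [tup, List.length_flatMap, length_tup j, pow_succ, mul_comm]

theorem nodup_tup {D : ℕ} (hD : 1 ≤ D) {bs : List ℕ} (h : bs.Nodup) : ∀ j, (tup D bs j).Nodup
  | 0 => by simp [tup]
  | j + 1 => by
    rw [tup, List.nodup_flatMap]
    refine ⟨fun b _ => (nodup_tup hD h j).map fun t t' e => (List.cons.inj e).2, ?_⟩
    refine h.pairwise_of_forall_ne fun b _ b' _ hne => ?_
    intro t h1 h2
    obtain ⟨u, -, rfl⟩ := List.mem_map.1 h1
    obtain ⟨u', -, e⟩ := List.mem_map.1 h2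
    have h3 := (List.cons.inj e).1
    simp only [sv] at h3
    exact hne (Nat.eq_of_mul_eq_mul_left hD (by omega : D * b = D * b'))

theorem idx_div {D j b : ℕ} (hj : j < D) : (D * b + j) / D = b := by
  rw [Nat.mul_add_div (by omega), Nat.div_eq_of_lt hj, add_zero]

theorem idx_mod {D j b : ℕ} (hj : j < D) : (D * b + j) % D = j := by
  rw [Nat.mul_add_mod, Nat.mod_eq_of_lt hj]

theorem mem_comb {D : ℕ} {φ : CNF} {bs : List ℕ} {pad : List Bool} {S : Slots}
    {C : List (ℕ × Bool)} : C ∈ comb D φ bs pad S ↔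
      (∃ C' ∈ φ, C = C'.map fun l => (3 * l.1, l.2)) ∨
      (∃ j < D, C = [(tv D j 0, true)] ∨ C = [(tv D j bs.length, false)] ∨
        ∃ b ∈ bs, C = [(tv D j b, false), (sv D j b, true), (tv D j (b + 1), true)]) ∨
      (pad ≠ [] ∧ C = [(2, true)]) ∨
      ∃ e ∈ S, ∃ l ∈ e.2, C = (e.1.map fun x => (x, false)) ++ [(3 * l.1, l.2)] := by
  simp only [comb, chain, List.mem_append, List.mem_map, List.mem_flatMap, List.mem_range,
    List.mem_cons, or_assoc]
  refine or_congr ?_ (or_congr ?_ (or_congr ?_ ?_))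
  · exact ⟨fun ⟨a, h1, h2⟩ => ⟨a, h1, h2.symm⟩, fun ⟨a, h1, h2⟩ => ⟨a, h1, h2.symm⟩⟩
  · refine exists_congr fun j => and_congr_right fun _ => or_congr Iff.rfl (or_congr Iff.rfl ?_)
    exact ⟨fun ⟨a, h1, h2⟩ => ⟨a, h1, h2.symm⟩, fun ⟨a, h1, h2⟩ => ⟨a, h1, h2.symm⟩⟩
  · constructor
    · rintro ⟨a, h1, h2⟩
      exact ⟨List.ne_nil_of_mem h1, h2.symm⟩
    · rintro ⟨h1, h2⟩
      obtain ⟨a, ha⟩ := List.exists_mem_of_ne_nil _ h1
      exact ⟨a, ha, h2.symm⟩
  · refine exists_congr fun e => and_congr_right fun _ => ?_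
    exact ⟨fun ⟨a, h1, h2⟩ => ⟨a, h1, h2.symm⟩, fun ⟨a, h1, h2⟩ => ⟨a, h1, h2.symm⟩⟩

theorem sat_comb {D B : ℕ} (hD : 1 ≤ D) {φ : CNF} {pad : List Bool} {S : Slots}
    (hS : S.map Prod.fst = tup D (List.range B) D) :
    Sat (comb D φ (List.range B) pad S) ↔ ∃ Y ∈ S.map Prod.snd, YesN φ Y := by
  constructor
  · rintro ⟨a, ha⟩
    have h1 : ∀ j, ∃ b, j < D → b < B ∧ a (sv D j b) = true := by
      intro j
      by_cases hj : j < D
      swap
      · exact ⟨0, fun h => absurd h hj⟩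
      by_contra hne
      have h2 : ∀ b ≤ B, a (tv D j b) = true := by
        intro b
        induction b with
        | zero =>
          intro _
          simpa using ha _ (mem_comb.2 (Or.inr (Or.inl ⟨j, hj, Or.inl rfl⟩)))
        | succ b ih =>
          intro hb
          have h3 := ha _ (mem_comb.2 (Or.inr (Or.inl ⟨j, hj, Or.inr (Or.inr
            ⟨b, List.mem_range.2 hb, rfl⟩)⟩)))
          have h4 := ih (by omega)
          have h5 : a (sv D j b) ≠ true := fun e => hne ⟨b, fun _ => ⟨hb, e⟩⟩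
          simpa [h4, h5] using h3
      have h3 := ha _ (mem_comb.2 (Or.inr (Or.inl ⟨j, hj, Or.inr (Or.inl rfl)⟩)))
      have h4 := h2 B le_rfl
      simp [h4] at h3
    choose δ hδ using h1
    have h2 : mk D δ D ∈ S.map Prod.fst := by
      rw [hS, mem_tup]; exact ⟨δ, fun i hi => (hδ i hi).1, rfl⟩
    obtain ⟨e, he, h3⟩ := List.mem_map.1 h2
    refine ⟨e.2, List.mem_map_of_mem he, fun v => a (3 * v), fun C hC => ?_, fun l hl => ?_⟩
    · obtain ⟨l, hl, h4⟩ := ha _ (mem_comb.2 (Or.inl ⟨C, hC, rfl⟩))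
      obtain ⟨l', hl', rfl⟩ := List.mem_map.1 hl
      exact ⟨l', hl', h4⟩
    · obtain ⟨x, hx, h4⟩ := ha _ (mem_comb.2 (Or.inr (Or.inr (Or.inr ⟨e, he, l, hl, rfl⟩))))
      rcases List.mem_append.1 hx with h5 | h5
      · obtain ⟨y, hy, rfl⟩ := List.mem_map.1 h5
        rw [h3, mem_mk] at hy
        obtain ⟨i, hi, rfl⟩ := hy
        rw [(hδ i hi).2] at h4
        exact absurd h4 (by simp)
      · rw [List.mem_singleton.1 h5] at h4
        exact h4
  · rintro ⟨Y, hY, a, ha, hρ⟩
    obtain ⟨e, he, rfl⟩ := List.mem_map.1 hY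
    obtain ⟨δ, hδ, h1⟩ := (mem_tup D e.1).1 (hS ▸ List.mem_map_of_mem he)
    let a' : ℕ → Bool := fun x => if x % 3 = 0 then a (x / 3) else
      if x % 3 = 1 then decide (x / 3 / D = δ (x / 3 % D)) else decide (x / 3 / D ≤ δ (x / 3 % D))
    have e0 : ∀ v, a' (3 * v) = a v := by
      intro v; simp [a']
    have e1 : ∀ j < D, ∀ b, a' (sv D j b) = decide (b = δ j) := by
      intro j hj b
      have h2 : sv D j b % 3 = 1 := by unfold sv; omega
      have h3 : sv D j b / 3 = D * b + j := by unfold sv; omega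
      simp [a', h2, h3, idx_div hj, idx_mod hj]
    have e2 : ∀ j < D, ∀ b, a' (tv D j b) = decide (b ≤ δ j) := by
      intro j hj b
      have h2 : tv D j b % 3 = 2 := by unfold tv; omega
      have h3 : tv D j b / 3 = D * b + j := by unfold tv; omega
      simp [a', h2, h3, idx_div hj, idx_mod hj]
    refine ⟨a', fun C hC => ?_⟩
    rcases mem_comb.1 hC with ⟨C', hC', rfl⟩ | ⟨j, hj, rfl | rfl | ⟨b, hb, rfl⟩⟩ | ⟨-, rfl⟩ |
      ⟨e', he', l, hl, rfl⟩
    · obtain ⟨l, hl, h2⟩ := ha C' hC'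
      exact ⟨_, List.mem_map_of_mem hl, by rw [e0]; exact h2⟩
    · exact ⟨_, List.mem_singleton_self _, by simp [e2 j hj]⟩
    · refine ⟨_, List.mem_singleton_self _, ?_⟩
      have := hδ j hj
      simp only [e2 j hj, List.length_range, decide_eq_false_iff_not]
      omega
    · rcases lt_trichotomy b (δ j) with h2 | h2 | h2
      · exact ⟨(tv D j (b + 1), true), by simp, by simpa [e2 j hj] using h2⟩
      · exact ⟨(sv D j b, true), by simp, by simpa [e1 j hj] using h2⟩
      · exact ⟨(tv D j b, false), by simp, by simpa [e2 j hj] using h2⟩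
    · refine ⟨_, List.mem_singleton_self _, ?_⟩
      have := e2 0 (by omega) 0
      simpa [tv] using this
    · obtain ⟨δ', -, h2⟩ := (mem_tup D e'.1).1 (hS ▸ List.mem_map_of_mem he')
      by_cases h3 : ∀ i < D, δ' i = δ i
      · have h4 : e'.1 = e.1 := by rw [h1, h2, mk_congr D h3]
        have h5 : (S.map Prod.fst).Nodup := hS ▸ nodup_tup hD List.nodup_range D
        obtain rfl : e' = e := List.inj_on_of_nodup_map h5 he' he h4
        exact ⟨(3 * l.1, l.2), by simp, by rw [e0]; exact hρ l hl⟩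
      · push Not at h3
        obtain ⟨i, hi, h4⟩ := h3
        refine ⟨(sv D i (δ' i), false), List.mem_append_left _ (List.mem_map_of_mem ?_), ?_⟩
        · rw [h2, mem_mk]; exact ⟨i, hi, rfl⟩
        · simpa [e1 i hi] using h4

theorem width_comb {D B : ℕ} (hD : 2 ≤ D) {φ : CNF} (hφ : Width (D + 1) φ) {pad : List Bool}
    {S : Slots} (hS : S.map Prod.fst = tup D (List.range B) D) :
    Width (D + 1) (comb D φ (List.range B) pad S) := by
  intro C hC
  rcases mem_comb.1 hC with ⟨C', hC', rfl⟩ | ⟨j, hj, rfl | rfl | ⟨b, hb, rfl⟩⟩ | ⟨-, rfl⟩ |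
    ⟨e', he', l, hl, rfl⟩
  · simpa using hφ C' hC'
  · simp
  · simp
  · simp only [List.length_cons, List.length_nil]; omega
  · simp
  · obtain ⟨δ', -, h2⟩ := (mem_tup D e'.1).1 (hS ▸ List.mem_map_of_mem he')
    simp [h2, length_mk]

theorem mem_vars_iff {φ : CNF} {v : ℕ} : v ∈ vars φ ↔ v ∈ (φ.flatten.map Prod.fst).toFinset := by
  simp [vars]

theorem nvars_comb {D B : ℕ} (hD : 1 ≤ D) {φ : CNF} {pad : List Bool}
    {S : Slots} (hS : S.map Prod.fst = tup D (List.range B) D)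
    (hv : ∀ Y ∈ S.map Prod.snd, ∀ l ∈ Y, l.1 ∈ vars φ) :
    nvars (comb D φ (List.range B) pad S) ≤ nvars φ + 3 * D * (B + 1) := by
  have h1 : ((comb D φ (List.range B) pad S).flatten.map Prod.fst).toFinset ⊆
      ((φ.flatten.map Prod.fst).toFinset.image fun v => 3 * v) ∪ Finset.range (3 * D * (B + 1)) := by
    intro x hx
    have hb : ∀ j < D, ∀ b ≤ B, 3 * (D * b + j) + 2 < 3 * D * (B + 1) := by
      intro j hj b hb
      have := Nat.mul_le_mul_left D hb
      have e : 3 * D * (B + 1) = 3 * (D * B) + 3 * D := by ring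
      omega
    simp only [List.mem_toFinset, List.mem_map, List.mem_flatten] at hx
    obtain ⟨l, ⟨C, hC, hl⟩, rfl⟩ := hx
    rw [Finset.mem_union, Finset.mem_range, Finset.mem_image]
    rcases mem_comb.1 hC with ⟨C', hC', rfl⟩ | ⟨j, hj, rfl | rfl | ⟨b, hb', rfl⟩⟩ | ⟨-, rfl⟩ |
      ⟨e', he', l', hl', rfl⟩
    · obtain ⟨l', hl', rfl⟩ := List.mem_map.1 hl
      exact Or.inl ⟨l'.1, mem_vars_iff.1 (mem_vars hC' hl'), rfl⟩
    · rw [List.mem_singleton.1 hl]; exact Or.inr (hb j hj 0 (by omega))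
    · rw [List.mem_singleton.1 hl, List.length_range]; exact Or.inr (hb j hj B le_rfl)
    · rw [List.mem_range] at hb'
      have h2 := hb j hj b (by omega)
      have h3 := hb j hj (b + 1) hb'
      simp only [List.mem_cons, List.not_mem_nil, or_false] at hl
      rcases hl with rfl | rfl | rfl
      · exact Or.inr h2
      · exact Or.inr (by simp only [sv]; omega)
      · exact Or.inr h3
    · rw [List.mem_singleton.1 hl]
      have := hb 0 (by omega) 0 (by omega)
      exact Or.inr (by simpa using this)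
    · rcases List.mem_append.1 hl with h2 | h2
      · obtain ⟨y, hy, rfl⟩ := List.mem_map.1 h2
        obtain ⟨δ', h3, h4⟩ := (mem_tup D e'.1).1 (hS ▸ List.mem_map_of_mem he')
        rw [h4, mem_mk] at hy
        obtain ⟨i, hi, rfl⟩ := hy
        have := hb i hi (δ' i) (h3 i hi).le
        exact Or.inr (by simp only [sv]; omega)
      · rw [List.mem_singleton.1 h2]
        exact Or.inl ⟨l'.1, mem_vars_iff.1 (hv _ (List.mem_map_of_mem he') l' hl'), rfl⟩
  refine (Finset.card_le_card h1).trans ((Finset.card_union_le _ _).trans ?_)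
  rw [Finset.card_range]
  exact Nat.add_le_add_right Finset.card_image_le _

theorem pad_le_sz {D : ℕ} {φ : CNF} {bs : List ℕ} {pad : List Bool} {S : Slots} :
    pad.length ≤ sz (comb D φ bs pad S) := by
  refine le_trans ?_ (length_le_sz _)
  simp only [comb, List.length_append, List.length_map]
  omega

theorem sv_pt (D j : ℕ) : PT fun b : ℕ => sv D j b :=
  PT.add (PT.mul (PT.const 3) (PT.add (PT.mul (PT.const D) PT.id) (PT.const j))) (PT.const 1)

theorem tv_pt (D j : ℕ) : PT fun b : ℕ => tv D j b :=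
  PT.add (PT.mul (PT.const 3) (PT.add (PT.mul (PT.const D) PT.id) (PT.const j))) (PT.const 2)

theorem tup_pt (D : ℕ) : ∀ j, PT fun bs : List ℕ => tup D bs j
  | 0 => PT.const [[]]
  | j + 1 => by
    have h0 : PT fun p : (List ℕ × ℕ) × List ℕ => p.1.2 := PT.snd PT.fst'
    have h0' : PT fun p : List ℕ × ℕ => p.1 := PT.fst'
    have h1 : PT fun p : (List ℕ × ℕ) × List ℕ => sv D j p.1.2 :: p.2 :=
      PT.cons (PT.comp (sv_pt D j) h0 :) PT.snd'
    have h2 : PT fun p : List ℕ × ℕ => (tup D p.1 j).map fun t => sv D j p.2 :: t :=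
      PT.map (F := fun (p : List ℕ × ℕ) (t : List ℕ) => sv D j p.2 :: t)
        (PT.comp (tup_pt D j) h0' :) h1
    exact PT.flatMap (F := fun (bs : List ℕ) (b : ℕ) => (tup D bs j).map fun t => sv D j b :: t)
      PT.id h2

theorem chain_pt (D j : ℕ) : PT fun bs : List ℕ => chain D bs j := by
  have hs : PT fun p : List ℕ × ℕ => p.2 := PT.snd'
  have h1 : PT fun p : List ℕ × ℕ =>
      [(tv D j p.2, false), (sv D j p.2, true), (tv D j (p.2 + 1), true)] :=
    PT.cons (PT.pair (PT.comp (tv_pt D j) hs :) (PT.const false))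
      (PT.cons (PT.pair (PT.comp (sv_pt D j) hs :) (PT.const true))
        (PT.cons (PT.pair (PT.comp (tv_pt D j) (PT.succ hs) :) (PT.const true)) (PT.const [])))
  have h2 : PT fun bs : List ℕ => bs.length := PT.length PT.id
  exact PT.cons (PT.const _) (PT.cons (PT.cons (PT.pair (PT.comp (tv_pt D j) h2 :)
    (PT.const false)) (PT.const [])) (PT.map (F := fun (_ : List ℕ) (b : ℕ) =>
      [(tv D j b, false), (sv D j b, true), (tv D j (b + 1), true)]) PT.id h1))

theorem chains_pt (D : ℕ) : ∀ J : List ℕ, PT fun bs : List ℕ => J.flatMap (chain D bs)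
  | [] => PT.const []
  | j :: J => (PT.append (chain_pt D j) (chains_pt D J)).congr fun _ => by
      rw [List.flatMap_cons]

theorem comb_pt (D : ℕ) : PT fun a : (CNF × List ℕ × List Bool) × Slots =>
    comb D a.1.1 a.1.2.1 a.1.2.2 a.2 := by
  have h0 : PT fun l : ℕ × Bool => (3 * l.1, l.2) :=
    PT.pair (PT.mul (PT.const 3) PT.fst') PT.snd'
  have hs1 : PT fun p : Node × (ℕ × Bool) => p.2 := PT.snd'
  have h1 : PT fun C : Node => C.map fun l => (3 * l.1, l.2) :=
    PT.map (F := fun (_ : Node) (l : ℕ × Bool) => (3 * l.1, l.2)) PT.id (PT.comp h0 hs1 :)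
  have hs2 : PT fun p : CNF × Node => p.2 := PT.snd'
  have h2 : PT fun φ : CNF => φ.map fun C => C.map fun l => (3 * l.1, l.2) :=
    PT.map (F := fun (_ : CNF) (C : Node) => C.map fun l => (3 * l.1, l.2)) PT.id
      (PT.comp h1 hs2 :)
  have h3 : PT fun pad : List Bool => pad.map fun _ => [((2 : ℕ), true)] :=
    PT.map (F := fun (_ : List Bool) (_ : Bool) => [((2 : ℕ), true)]) PT.id (PT.const _)
  have h4 : PT fun t : List ℕ => t.map fun x => (x, false) :=
    PT.map (F := fun (_ : List ℕ) (x : ℕ) => (x, false)) PT.id (PT.pair PT.snd' (PT.const false))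
  have hs3 : PT fun p : (List ℕ × Node) × (ℕ × Bool) => p.2 := PT.snd'
  have hs4 : PT fun p : (List ℕ × Node) × (ℕ × Bool) => p.1.1 := PT.fst PT.fst'
  have h5 : PT fun e : List ℕ × Node =>
      e.2.map fun l => (e.1.map fun x => (x, false)) ++ [(3 * l.1, l.2)] :=
    PT.map (F := fun (e : List ℕ × Node) (l : ℕ × Bool) =>
      (e.1.map fun x => (x, false)) ++ [(3 * l.1, l.2)]) PT.snd'
      (PT.append (PT.comp h4 hs4 :) (PT.cons (PT.comp h0 hs3 :) (PT.const [])))
  have hs5 : PT fun p : Slots × (List ℕ × Node) => p.2 := PT.snd'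
  have h6 : PT fun S : Slots => S.flatMap fun e =>
      e.2.map fun l => (e.1.map fun x => (x, false)) ++ [(3 * l.1, l.2)] :=
    PT.flatMap (F := fun (_ : Slots) (e : List ℕ × Node) =>
      e.2.map fun l => (e.1.map fun x => (x, false)) ++ [(3 * l.1, l.2)]) PT.id
      (PT.comp h5 hs5 :)
  have g1 : PT fun a : (CNF × List ℕ × List Bool) × Slots => a.1.1 := PT.fst PT.fst'
  have g2 : PT fun a : (CNF × List ℕ × List Bool) × Slots => a.1.2.1 := PT.fst (PT.snd PT.fst')
  have g3 : PT fun a : (CNF × List ℕ × List Bool) × Slots => a.1.2.2 := PT.snd (PT.snd PT.fst')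
  have g4 : PT fun a : (CNF × List ℕ × List Bool) × Slots => a.2 := PT.snd'
  exact PT.append (PT.append (PT.append (PT.comp h2 g1 :) (PT.comp (chains_pt D _) g2 :))
    (PT.comp h3 g3 :)) (PT.comp h6 g4 :)

theorem scan_range : ∀ (l : List Bool) (s : ℕ),
    (PT.scan (fun (n : ℕ) (_ : Bool) => n + 1) s l).map Prod.fst = List.range' s l.length
  | [], _ => rfl
  | b :: l, s => by rw [PT.scan, List.map_cons, scan_range l, List.length_cons, List.range'_succ]

theorem range_pt : PT fun l : List Bool => List.range l.length := by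
  have h1 := PT.scan_pt (h := fun (n : ℕ) (_ : Bool) => n + 1) (f := fun l : List Bool => l)
    (g := fun _ => 0) PT.id (PT.const 0) (PT.succ PT.fst') 2 (by
      intro s _
      have h1 := PT.sz_add_le s 1
      have h3 : sz (1 : ℕ) = 1 := by rw [sz_nat]; rfl
      omega)
  refine (PT.map (F := fun (_ : List Bool) (p : ℕ × Bool) => p.1) h1 (PT.fst PT.snd')).congr
    fun l => ?_
  rw [List.range_eq_range', ← scan_range l 0]

end Pool.Agent.Lib.MP_ddf912_lc.Hier
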