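import Pool.Agent.Lib.MP_ddf912_lc.Hier.Comb

namespace Pool.Agent.Lib.MP_ddf912_lc.Hier

open Turing N487b59b3 N68a2faeb Pool.Agent.Lib.helper82

theorem length_flatten_le : ∀ φ : CNF, φ.flatten.length ≤ sz φ
  | [] => by simp
  | C :: φ => by
    have h1 := length_flatten_le φ
    have h2 := length_le_sz C
    rw [List.flatten_cons, List.length_append, sz_cons]
    omega

theorem nvars_le_sz (φ : CNF) : nvars φ ≤ sz φ := by
  refine (List.toFinset_card_le _).trans ?_
  rw [List.length_map]
  exact length_flatten_le φ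

theorem sz_var_le {φ : CNF} {v : ℕ} (h : v ∈ vars φ) : sz v ≤ sz φ := by
  simp only [vars, List.mem_dedup, List.mem_map, List.mem_flatten] at h
  obtain ⟨⟨u, c⟩, ⟨C, hC, hl⟩, rfl⟩ := h
  have h1 := sz_le_of_mem hl
  have h2 := sz_le_of_mem hC
  rw [sz_prod] at h1
  simp only
  omega

theorem sz_node_le {φ : CNF} {Y : Node} (h : Good φ Y) {z : ℕ} (hz : sz φ ≤ z) :
    sz Y ≤ z * (2 * (2 * z + 2) + 1) := by
  refine (sz_le_of_forall (2 * z + 2) Y ?_).trans
    (Nat.mul_le_mul_right _ (h.1.trans ((nvars_le_sz φ).trans hz)))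
  rintro ⟨v, c⟩ hl
  have h1 := sz_var_le (h.2 _ hl)
  rw [sz_prod, sz_bool]
  simp only at h1
  omega

theorem sz_tuple_le {D j z : ℕ} (hz : j + 1 ≤ z) {t : List ℕ} (h : t ∈ tup D (List.range j) D) :
    sz t ≤ D * (2 * (3 * D * z) + 1) := by
  obtain ⟨δ, h1, rfl⟩ := (mem_tup D t).1 h
  refine (sz_le_of_forall (3 * D * z) _ fun x hx => ?_).trans (by rw [length_mk])
  obtain ⟨i, hi, rfl⟩ := (mem_mk D).1 hx
  refine (sz_nat_le_self _).trans ?_
  have h2 := Nat.mul_le_mul_left D (show δ i + 2 ≤ z by have := h1 i hi; omega)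
  rw [mul_add] at h2
  simp only [sv]
  rw [mul_assoc]
  omega

theorem sz_range_le {j z : ℕ} (hz : j ≤ z) : sz (List.range j) ≤ z * (2 * z + 1) := by
  refine (sz_le_of_forall z _ fun x hx => ?_).trans
    (Nat.mul_le_mul_right _ (by rw [List.length_range]; exact hz))
  exact (sz_nat_le_self _).trans ((List.mem_range.1 hx).le.trans hz)

theorem numeric' {D g e j : ℕ} (hj : (4 * g * e + 1) ^ D + 2 ≤ j) :
    (2 * (g * ((j + 1) * e)) + 1) ^ D + 1 < j * j ^ D := by
  have h0 : 1 ≤ j := by omega
  have h1 : 2 * (g * ((j + 1) * e)) + 1 ≤ (4 * g * e + 1) * j := by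
    nlinarith [Nat.zero_le (g * e), Nat.mul_le_mul_left (g * e) h0]
  have h2 := Nat.pow_le_pow_left h1 D
  rw [mul_pow] at h2
  have h3 : 1 ≤ j ^ D := Nat.one_le_pow _ _ h0
  nlinarith [Nat.mul_le_mul_right (j ^ D) hj]

theorem collide' {Λ : Type} [Fintype Λ] {l : List (List ℕ)} {L : ℕ}
    (hL : Fintype.card Λ < L ^ l.length) (T : Finset Node) (hT : l.length * L ≤ T.card)
    (lab : Slots → Λ) : ∃ S S' : Slots, S.map Prod.fst = l ∧ S'.map Prod.fst = l ∧
      (∀ Y ∈ S.map Prod.snd, Y ∈ T) ∧ (∀ Y ∈ S'.map Prod.snd, Y ∈ T) ∧ lab S = lab S' ∧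
      ∃ X ∈ S.map Prod.snd, X ∉ S'.map Prod.snd := by
  obtain ⟨emb⟩ : Nonempty (Fin l.length × Fin L ↪ T) :=
    Function.Embedding.nonempty_of_card_le (by simpa using hT)
  let S : (Fin l.length → Fin L) → Slots := fun σ =>
    List.ofFn fun i => (l.get i, (emb (i, σ i)).1)
  have h1 : ∀ σ, (S σ).map Prod.fst = l := fun σ => by
    simp only [S, List.map_ofFn]
    exact List.ofFn_get l
  have h2 : ∀ σ Y, Y ∈ (S σ).map Prod.snd ↔ ∃ i, (emb (i, σ i)).1 = Y := fun σ Y => by
    simp only [S, List.map_ofFn, List.mem_ofFn]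
    rfl
  obtain ⟨σ, σ', hne, h⟩ := Fintype.exists_ne_map_eq_of_card_lt (fun σ => lab (S σ))
    (by simpa using hL)
  obtain ⟨i, hi⟩ := Function.ne_iff.1 hne
  refine ⟨S σ, S σ', h1 σ, h1 σ', fun Y hY => ?_, fun Y hY => ?_, h, (emb (i, σ i)).1,
    (h2 _ _).2 ⟨i, rfl⟩, fun h3 => ?_⟩
  · obtain ⟨i, rfl⟩ := (h2 _ _).1 hY
    exact (emb _).2
  · obtain ⟨i, rfl⟩ := (h2 _ _).1 hY
    exact (emb _).2
  · obtain ⟨i', h4⟩ := (h2 _ _).1 h3
    have h5 := emb.injective (Subtype.ext h4)
    obtain ⟨rfl, h6⟩ := Prod.mk.inj h5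
    exact hi h6.symm

theorem sp_level {D : ℕ} (hD : 2 ≤ D) (h : FptRed (pLogSat (D + 1)) (pLogSat D)) :
    SP (pLogSat (D + 1)) := by
  obtain ⟨R, g, hR, hg, hr⟩ := h
  obtain ⟨sim, f, c, hsim, hf, hs⟩ := hR.sim
  obtain ⟨F, hF, hF'⟩ := exists_envelope hf
  obtain ⟨G, hG, hG'⟩ := exists_envelope hg
  obtain ⟨le, hle, hle1, hle2⟩ := exists_le D
  obtain ⟨p, hp, ep⟩ := prs_cnf
  have pN : Prs Node := Prs.list (Prs.nat.prod Prs.bool)
  have pS : Prs Slots := Prs.list ((Prs.list Prs.nat).prod pN)
  obtain ⟨pw, hpw, epw⟩ : Prs (List Bool × List Bool × List Bool × List Ln) :=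
    (Prs.list Prs.bool).prod ((Prs.list Prs.bool).prod ((Prs.list Prs.bool).prod
      (Prs.list (pN.prod (Prs.nat.prod (pS.prod pS))))))
  obtain ⟨q, hq⟩ := (comb_pt D).sz_bd
  obtain ⟨q', hq'⟩ := hsim.sz_bd
  let sm : CNF × List ℕ × List Bool → List Bool → Slots → Bool × List Bool := fun γ clk S =>
    sim (enc (comb D γ.1 γ.2.1 γ.2.2 S), clk)
  let test : CNF × List ℕ × List Bool → List Bool → Slots → Slots → Bool := fun γ clk S S' =>
    decide (S.map Prod.fst = tup D γ.2.1 D) && decide (S'.map Prod.fst = tup D γ.2.1 D) &&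
      (sm γ clk S).1 && (sm γ clk S').1 && le ((sm γ clk S).2, (sm γ clk S').2)
  have k1 : PT fun a : ((CNF × List ℕ × List Bool) × List Bool) × Slots => (a.1.1, a.2) :=
    PT.pair (PT.fst PT.fst') PT.snd'
  have hsm : PT fun a : ((CNF × List ℕ × List Bool) × List Bool) × Slots => sm a.1.1 a.1.2 a.2 :=
    PT.comp hsim (PT.pair (PT.comp PT.encList (PT.comp (comb_pt D) k1 :)) (PT.snd PT.fst'))
  have hI : PT fun a : List Bool × List Bool => p a.1 := PT.comp hp PT.fst'
  have hW : PT fun a : List Bool × List Bool => pw a.2 := PT.comp hpw PT.snd'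
  have hB : PT fun a : List Bool × List Bool => List.range (pw a.2).2.1.length :=
    (PT.comp range_pt (PT.fst (PT.snd hW)) :)
  have hγ : PT fun a : List Bool × List Bool =>
      ((p a.1, List.range (pw a.2).2.1.length, (pw a.2).2.2.1), (pw a.2).1) :=
    PT.pair (PT.pair hI (PT.pair hB (PT.fst (PT.snd (PT.snd hW))))) (PT.fst hW)
  have k2 : PT fun a : (List Bool × List Bool) × Slots × Slots => a.1 := PT.fst'
  have k3 : PT fun a : (List Bool × List Bool) × Slots × Slots => a.2.1 := PT.fst PT.snd'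
  have k4 : PT fun a : (List Bool × List Bool) × Slots × Slots => a.2.2 := PT.snd PT.snd'
  have h0 := PT.comp hγ k2
  have h1 := PT.comp hsm (PT.pair h0 k3)
  have h2 := PT.comp hsm (PT.pair h0 k4)
  have hfst : PT fun S : Slots => S.map Prod.fst :=
    PT.map (F := fun (_ : Slots) (e : List ℕ × Node) => e.1) PT.id (PT.fst PT.snd')
  have hT := PT.comp (tup_pt D D) (PT.comp hB k2)
  have hrun := run_pt (test := fun a : List Bool × List Bool =>
      test (p a.1, List.range (pw a.2).2.1.length, (pw a.2).2.2.1) (pw a.2).1) hI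
    (PT.and (PT.and (PT.and (PT.and (PT.eq (PT.comp hfst k3) hT) (PT.eq (PT.comp hfst k4) hT))
      (PT.fst h1)) (PT.fst h2)) (PT.comp hle (PT.pair (PT.snd h1) (PT.snd h2))))
    (PT.snd (PT.snd (PT.snd hW)))
  have hval : PT fun a : List Bool × List Bool =>
      (p a.1).all fun C => decide (C.length ≤ D + 1) :=
    PT.all (P := fun _ (C : List (ℕ × Bool)) => decide (C.length ≤ D + 1)) hI
      (PT.le (PT.length PT.snd') (PT.const (D + 1)))
  let s0 : ℕ → ℕ := fun z => z * (2 * (2 * z + 2) + 1)
  let s2 : ℕ → ℕ := fun z => z ^ D * (2 * (2 * (D * (2 * (3 * D * z) + 1)) + 1 + s0 z) + 1)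
  let u : ℕ → ℕ := fun z => q.eval (2 * (5 * z + 2 + 2 * (z * (2 * z + 1))) + 1 + s2 z)
  have c0 : Bd (fun z => z) s0 := Bd.self.mul (((Bd.const 2).mul
    (((Bd.const 2).mul Bd.self).add (Bd.const 2))).add (Bd.const 1))
  have c2 : Bd (fun z => z) s2 := (Bd.self.pow D).mul (((Bd.const 2).mul
    ((((Bd.const 2).mul ((Bd.const D).mul (((Bd.const 2).mul
      ((Bd.const (3 * D)).mul Bd.self)).add (Bd.const 1)))).add (Bd.const 1)).add c0)).add
      (Bd.const 1))
  have b1 : Bd (fun z => z) u := ((((Bd.const 2).mul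
    ((((Bd.const 5).mul Bd.self).add (Bd.const 2)).add ((Bd.const 2).mul (Bd.self.mul
      (((Bd.const 2).mul Bd.self).add (Bd.const 1)))))).add (Bd.const 1)).add c2).eval q
  have b2 := Bd.self.mul ((b1.add (Bd.const 1)).pow c)
  obtain ⟨e, he⟩ := (((((Bd.const 6).mul b1).add (Bd.const 1)).add
    ((Bd.const 3).mul b2)).eval q').le_pow
  obtain ⟨e', he'⟩ := (((((Bd.const 6).mul b2).add ((Bd.const 12).mul Bd.self)).add
    (Bd.const 3)).add (((Bd.const 1).add (((Bd.const 3).mul ((Bd.self.pow D).mul Bd.self)).mul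
      Bd.self)).mul (((Bd.const 2).mul (((((Bd.const 2).mul c0).add ((Bd.const 2).mul
        Bd.self)).add (Bd.const 3)).add ((Bd.const 3).mul c2))).add (Bd.const 1)))).le_pow
  have hk6 : Computable fun k : ℕ => k + 6 * D :=
    computable_add Computable.id (Computable.const _)
  refine ⟨fun a => !(decide (enc (p a.1) = a.1) && (p a.1).all fun C =>
      decide (C.length ≤ D + 1)) || decide ([] ∈ (pw a.2).2.2.2.foldl (step (p a.1)
        (test (p a.1, List.range (pw a.2).2.1.length, (pw a.2).2.2.1) (pw a.2).1)) []),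
    fun k => (2 ^ ((4 * G (k + 6 * D) * e + 1) ^ D + 4) * (F (k + 6 * D) + 2)) ^ e', e',
    PT.or (PT.not (PT.and (PT.eq (PT.comp PT.encList hI) PT.fst') hval))
      (ptMem (PT.const []) hrun),
    computable_pow (computable_mul (computable_two_pow (computable_add
      (computable_pow (computable_add (computable_mul (computable_mul (Computable.const 4)
        (hG.comp hk6)) (Computable.const e)) (Computable.const 1)) D)
      (Computable.const 4))) (computable_add (hF.comp hk6) (Computable.const 2))) e', ?_, ?_⟩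
  · rintro x w hw ⟨φ, rfl, hwid, hsat⟩
    have e0 : bitEncode φ = enc φ := rfl
    have e1 : (φ.all fun C => decide (C.length ≤ D + 1)) = true := by
      simpa [Width] using hwid
    simp only [e0, ep, e1, decide_true, Bool.and_self, Bool.not_true, Bool.false_or,
      decide_eq_true_eq] at hw
    obtain ⟨a, ha⟩ := hsat
    refine run_sound (φ := φ) (test := test (φ, List.range (pw w).2.1.length, (pw w).2.2.1)
      (pw w).1) ?_ _ [] (by simp) _ hw ⟨a, ha, by simp⟩
    intro S S' ht hS' Y hY hY'
    simp only [test, sm, Bool.and_eq_true, decide_eq_true_eq] at ht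
    obtain ⟨⟨⟨⟨h6, h7⟩, h3⟩, h4⟩, h5⟩ := ht
    rw [(hs _ _).2 h3, (hs _ _).2 h4] at h5
    refine hle1 _ _ h5 (fun h8 => ?_) ((hr _).1.1 ((mem_coded _ _ _).2
      ⟨width_comb hD hwid h6, (sat_comb (by omega) h6).2 ⟨Y, hY, hY'⟩⟩))
    obtain ⟨Z, hZ, hZ'⟩ := (sat_comb (by omega) h7).1 ((mem_coded _ _ _).1 ((hr _).1.2 h8)).2
    exact hS' Z hZ hZ'
  · intro x hx
    by_cases hv : enc (p x) = x ∧ Width (D + 1) (p x)
    swap
    · refine ⟨[], by simp, ?_⟩
      have : (decide (enc (p x) = x) && (p x).all fun C => decide (C.length ≤ D + 1)) = false := by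
        rw [Bool.eq_false_iff]
        intro h9
        apply hv
        simpa [Width] using h9
      simp only [this, Bool.not_false, Bool.true_or]
    obtain ⟨φ, rfl⟩ : ∃ φ : CNF, enc φ = x := ⟨_, hv.1⟩
    have hwid : Width (D + 1) φ := by simpa [ep] using hv.2
    have hno : ¬ YesN φ [] := fun ⟨a, ha, _⟩ => hx ((mem_coded _ _ _).2 ⟨hwid, a, ha⟩)
    set k := (pLogSat (D + 1)).κ (enc φ) with hk
    have hκ' : ⌈(nvars φ : ℝ) / Real.logb 2 (bitEncode φ).length⌉₊ ≤ k := by
      rw [hk, pLogSat, κ_coded]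
    set N := sz φ with hN
    set j := (4 * G (k + 6 * D) * e + 1) ^ D + 2 + (F (k + 6 * D) + N + 2).size with hj
    set L := 2 ^ j with hL
    set z := F (k + 6 * D) + L + N + 2 with hz
    have h3 : F (k + 6 * D) + N + 2 < L :=
      (Nat.lt_size_self _).trans_le (Nat.pow_le_pow_right (by norm_num) (by omega))
    have h4 : z ≤ 2 ^ (j + 1) := by rw [pow_succ]; omega
    have hjL : j < L := Nat.lt_two_pow_self
    have hj1 : 1 ≤ j := by omega
    have hn : nvars φ ≤ k * j := nvars_le hκ' (by omega)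
    set clk := List.replicate (z * (u z + 1) ^ c) true with hclk
    set pad := List.replicate L true with hpad
    set γ : CNF × List ℕ × List Bool := (φ, List.range j, pad) with hγ'
    obtain ⟨lab, hlab⟩ := hle2 (G (k + 6 * D) * ((j + 1) * e))
    have hszS : ∀ S : Slots, S.map Prod.fst = tup D (List.range j) D →
        (∀ Y ∈ S.map Prod.snd, Good φ Y) → sz S ≤ s2 z := by
      intro S h5 h6
      refine (sz_le_of_forall (2 * (D * (2 * (3 * D * z) + 1)) + 1 + s0 z) S ?_).trans
        (Nat.mul_le_mul_right _ ?_)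
      · rintro ⟨t, Y⟩ ht
        have h7 := sz_tuple_le (z := z) (by omega) (h5 ▸ List.mem_map_of_mem (f := Prod.fst) ht)
        have h8 := sz_node_le (z := z) (h6 _ (List.mem_map_of_mem (f := Prod.snd) ht)) (by omega)
        rw [sz_prod]
        simp only [s0] at h7 h8 ⊢
        omega
      · rw [← List.length_map (f := Prod.fst), h5, length_tup, List.length_range]
        exact Nat.pow_le_pow_left (by omega) D
    have key : ∀ S : Slots, S.map Prod.fst = tup D (List.range j) D →
        (∀ Y ∈ S.map Prod.snd, Good φ Y) → (sm γ clk S).1 = true ∧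
          ∀ ψ : CNF, enc ψ = (sm γ clk S).2 → nvars ψ ≤ G (k + 6 * D) * ((j + 1) * e) := by
      intro S h5 h6
      have h7 := hszS S h5 h6
      have h7' := sz_range_le (show j ≤ z by omega)
      have h8 : (enc (comb D φ (List.range j) pad S)).length ≤ u z :=
        (hq (γ, S)).trans (eval_mono q (by
          rw [sz_prod, hγ', sz_prod, sz_prod, PT.sz_listBool, hpad, List.length_replicate, ← hN]
          omega))
      have hκ : (pLogSat (D + 1)).κ (enc (comb D φ (List.range j) pad S)) ≤ k + 6 * D := by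
        rw [pLogSat, κ_coded]
        have a1 : L ≤ sz (comb D φ (List.range j) pad S) := by
          have := pad_le_sz (D := D) (φ := φ) (bs := List.range j) (pad := pad) (S := S)
          rwa [hpad, List.length_replicate, ← hpad] at this
        have a2 := nvars_comb (pad := pad) (by omega) h5 fun Y hY => (h6 Y hY).2
        refine Nat.le_of_not_lt fun a3 => ?_
        rw [lt_ceil_iff (by change 2 ≤ sz _; omega)] at a3
        have a4 := (Nat.pow_le_pow_left a1 (k + 6 * D)).trans_lt a3
        rw [hL, ← pow_mul, Nat.pow_lt_pow_iff_right (by norm_num)] at a4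
        nlinarith [Nat.mul_le_mul_left (3 * D) hj1]
      have h9 := (hs (enc (comb D φ (List.range j) pad S)) clk).1 (by
        rw [hclk, List.length_replicate]
        exact Nat.mul_le_mul ((hF' _ _ hκ).trans (by omega)) (Nat.pow_le_pow_left (by omega) c))
      refine ⟨h9, fun ψ hψ => ?_⟩
      have h10 := (hs (enc (comb D φ (List.range j) pad S)) clk).2 h9
      have h11 := (hr (enc (comb D φ (List.range j) pad S))).2.trans (hG' _ _ hκ)
      rw [← h10] at h11
      change (pLogSat D).κ (sm γ clk S).2 ≤ _ at h11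
      rw [← hψ] at h11
      refine nvars_le ((κ_coded _ _ ψ).symm.le.trans h11) ?_
      have h12 := hq' (enc (comb D φ (List.range j) pad S), clk)
      have h13 : sz (sim (enc (comb D φ (List.range j) pad S), clk)) = 2 * 1 + 1 + 3 * sz ψ := by
        rw [sz, sz, hψ, ← PT.sz_listBool]
        exact sz_prod (sim (enc (comb D φ (List.range j) pad S), clk)).1
          (sim (enc (comb D φ (List.range j) pad S), clk)).2
      have h14 := eval_mono q' (show sz ((enc (comb D φ (List.range j) pad S), clk) :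
          List Bool × List Bool) ≤ 6 * u z + 1 + 3 * (z * (u z + 1) ^ c) by
        rw [sz_prod, PT.sz_listBool, PT.sz_listBool, hclk, List.length_replicate]; omega)
      have h15 := he z (by omega)
      have h16 := Nat.pow_le_pow_left h4 e
      rw [← pow_mul] at h16
      simp only at h12 h15
      omega
    obtain ⟨P, hP1, hP2, hP3⟩ := complete (φ := φ) (test := test γ clk)
      (b := 2 * s0 z + 2 * z + 3 + 3 * s2 z) (W := j ^ D * L) (by
        intro X v hX hv
        have h5 := sz_node_le (z := z) hX (by omega)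
        have h6 : sz v ≤ z := by
          rcases hv with rfl | hv
          · simp [sz_nat]
          · exact (sz_var_le hv).trans (by omega)
        simp only [sz_prod, sz_nil, s0]
        omega) (by
        intro T hT hTV
        obtain ⟨S, S', h5, h6, h7, h8, hl, X, hX, hX'⟩ := collide'
          (l := tup D (List.range j) D) (L := L) (by
            rw [card_labels, length_tup, List.length_range, hL, ← pow_mul]
            exact Nat.pow_lt_pow_right (by norm_num) (numeric' (by omega))) T (by
            rw [length_tup, List.length_range]; omega)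
          fun S => lab (sm γ clk S).2
        have h9 : ∀ Y ∈ S.map Prod.snd, Good φ Y := fun Y hY => hTV Y (h7 Y hY)
        have h10 : ∀ Y ∈ S'.map Prod.snd, Good φ Y := fun Y hY => hTV Y (h8 Y hY)
        obtain ⟨h11, -⟩ := key _ h5 h9
        obtain ⟨h12, h13⟩ := key _ h6 h10
        refine ⟨X, h7 X hX, (X, 0, S, S'), rfl, ?_, fun acc hacc => ?_⟩
        · have a1 := sz_node_le (z := z) (h9 X hX) (by omega)
          have a2 := hszS S h5 h9
          have a3 := hszS S' h6 h10
          have a4 : sz (0 : ℕ) = 0 := by simp [sz_nat]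
          simp only [sz_prod, a4, s0] at a1 ⊢
          omega
        · have a1 : test γ clk S S' = true := by
            have a0 : γ.2.1 = List.range j := rfl
            simp only [test, h11, h12, hlab _ _ h13 hl, a0, h5, h6, decide_true, Bool.and_self]
          have a2 : ((S'.map Prod.snd).all fun Y => decide (Y ∈ acc)) = true := by
            rw [List.all_eq_true]
            intro Y hY
            exact decide_eq_true (hacc Y (Finset.mem_erase.2 ⟨fun e => hX' (e ▸ hY), h8 Y hY⟩))
          simp only [just, a1, a2, hX, decide_true, Bool.and_self, Bool.or_true])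
      (vars φ) (fun _ h => h) {[]} (by
        intro Y hY
        obtain rfl := Finset.mem_singleton.1 hY
        exact ⟨by simp [length_vars], by simp, hno, fun v hv => Or.inl hv⟩)
    refine ⟨enc (clk, List.replicate j true, pad, P), ?_, ?_⟩
    · have h5 := sz_le_of_forall _ P hP2
      have h6 := nvars_le_sz φ
      have h7 : P.length ≤ 1 + 3 * (z ^ D * z) * z := by
        refine hP1.trans ?_
        rw [Finset.card_singleton, length_vars]
        exact Nat.add_le_add_left (Nat.mul_le_mul (Nat.mul_le_mul_left 3 (Nat.mul_le_mul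
          (Nat.pow_le_pow_left (by omega) D) (by omega))) (by omega)) 1
      have h9 := h5.trans (Nat.mul_le_mul_right _ h7)
      have h10 := he' z (by omega)
      have h11 : z ≤ 2 ^ ((4 * G (k + 6 * D) * e + 1) ^ D + 4) * (F (k + 6 * D) + 2) * (N + 1) := by
        refine h4.trans ?_
        have h12 : 2 ^ (F (k + 6 * D) + N + 2).size ≤ 2 * (F (k + 6 * D) + N + 2) := by
          have h13 : 0 < (F (k + 6 * D) + N + 2).size := Nat.size_pos.2 (by omega)
          have h14 := (Nat.lt_size (m := (F (k + 6 * D) + N + 2).size - 1)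
            (n := F (k + 6 * D) + N + 2)).1 (by omega)
          rw [show (F (k + 6 * D) + N + 2).size = (F (k + 6 * D) + N + 2).size - 1 + 1 by omega,
            pow_succ]
          omega
        calc 2 ^ (j + 1) = 2 ^ ((4 * G (k + 6 * D) * e + 1) ^ D + 3) *
              2 ^ (F (k + 6 * D) + N + 2).size := by
              rw [← pow_add, hj]; congr 1; omega
          _ ≤ 2 ^ ((4 * G (k + 6 * D) * e + 1) ^ D + 3) * (2 * ((F (k + 6 * D) + 2) * (N + 1))) :=
              Nat.mul_le_mul_left _ (h12.trans (by nlinarith))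
          _ = _ := by ring
      have h12 := Nat.pow_le_pow_left h11 e'
      change sz (clk, List.replicate j true, pad, P) ≤ _ * (N + 1) ^ e'
      rw [sz_prod, sz_prod, sz_prod, PT.sz_listBool, PT.sz_listBool, PT.sz_listBool, hclk, hpad,
        List.length_replicate, List.length_replicate, List.length_replicate, ← mul_pow]
      omega
    · have := hP3 [] (by simp) [] (by simp)
      simp only [ep, epw, List.length_replicate, Bool.or_eq_true, decide_eq_true_eq]
      exact Or.inr this

theorem levels {d : ℕ} (hd : 2 ≤ d) (h : Below (pLogSat (d + 1)) ⊆ Below (pLogSat d))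
    {A : PProb} (hA : A ∈ Below (pLogSat (d + 1))) : SP A :=
  (sp_level hd (h ⟨(prs_cnf.extend logParam_pt 0).isPolyTime, fptRed_refl _⟩).2).of_red hA.2

end Pool.Agent.Lib.MP_ddf912_lc.Hier
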