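import Pool.Agent.Lib.MP_ddf912_lc.Defs

namespace Pool.Agent.Lib.MP_ddf912_lc

open N487b59b3

/-- Disjunctive fpt-reductions producing at most `f (κ x) * (|x| + 1) ^ (1 - δ)` instances. -/
def OrRed (δ : ℝ) (A B : PProb) : Prop :=
  ∃ (R : List Bool → List (List Bool)) (f g : ℕ → ℕ),
    FptTime A.κ (fun x => bitEncode (R x)) ∧ Computable f ∧ Computable g ∧
    ∀ x, (x ∈ A.Q ↔ ∃ y ∈ R x, y ∈ B.Q) ∧ (∀ y ∈ R x, B.κ y ≤ g (A.κ x)) ∧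
      ((R x).length : ℝ) ≤ f (A.κ x) * ((x.length : ℝ) + 1) ^ (1 - δ)

end Pool.Agent.Lib.MP_ddf912_lc
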