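import Pool.Agent.Lib.MP_ddf912_lc.Main
import Pool.Agent.Lib.MP_ddf912_lc.Hier.OrDefs

namespace Pool.Agent.Lib.MP_ddf912_lc.Hier

open Turing N487b59b3 N68a2faeb Pool.Agent.Lib.helper82

theorem sz_flatMap_le {α β : Type} [Enc β] (F : α → List β) (B : ℕ) :
    ∀ l : List α, (∀ a ∈ l, sz (F a) ≤ B) → sz (l.flatMap F) ≤ l.length * B
  | [], _ => by simp [sz_nil]
  | a :: l, h => by
    have h1 := sz_flatMap_le F B l fun b hb => h b (List.mem_cons_of_mem _ hb)
    have h2 := h a List.mem_cons_self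
    rw [List.flatMap_cons, sz_append, List.length_cons, add_mul]
    omega

theorem sz_tag {α : Type} [Enc α] (b : Bool) (a : α) : sz (tag b a) = sz a + 2 := by
  rw [sz, enc_tag]; simp

theorem sz_un_le {V : List ℕ} {E : List (ℕ × ℕ)} {k L N : ℕ} (hN : sz ((V, E, k) : Inst) ≤ N)
    {S : List (List ℕ)} (h1 : S.length ≤ L + 1) (h2 : ∀ Y ∈ S, Y.Sublist V) :
    sz (un (V, E, k) S) + 1 ≤ (L + 2) * (108 * (N + 1) ^ 2) := by
  rw [sz_prod, sz_prod] at hN
  have a1 : ∀ Y ∈ S, ∀ v : ℕ, sz v ≤ N → sz (tag true (Y, v)) ≤ 3 * N + 3 := by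
    intro Y hY v hv
    have := sz_le_of_sublist (h2 Y hY)
    rw [sz_tag, sz_prod]; omega
  have a2 := sz_flatMap_le (fun Y : List ℕ => Y.map fun v => tag true (Y, v))
    (N * (2 * (3 * N + 3) + 1)) S (by
      intro Y hY
      have b1 := sz_le_of_sublist (h2 Y hY)
      refine (sz_le_of_forall (3 * N + 3) _ fun x hx => ?_).trans (Nat.mul_le_mul_right _ ?_)
      · obtain ⟨v, hv, rfl⟩ := List.mem_map.1 hx
        exact a1 Y hY v (by have := sz_le_of_mem hv; omega)
      · have := length_le_sz Y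
        rw [List.length_map]; omega)
  have a3 := sz_flatMap_le (fun Y : List ℕ => E.map fun e => (tag true (Y, e.1), tag true (Y, e.2)))
    (N * (2 * (9 * N + 10) + 1)) S (by
      intro Y hY
      refine (sz_le_of_forall (9 * N + 10) _ fun x hx => ?_).trans (Nat.mul_le_mul_right _ ?_)
      · obtain ⟨⟨u, v⟩, hv, rfl⟩ := List.mem_map.1 hx
        have b1 := sz_le_of_mem hv
        rw [sz_prod] at b1
        have b2 := a1 Y hY u (by omega)
        have b3 := a1 Y hY v (by omega)
        rw [sz_prod]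
        simp only at b2 b3 ⊢
        omega
      · have := length_le_sz E
        rw [List.length_map]; omega)
  have a4 := a2.trans (Nat.mul_le_mul_right _ h1)
  have a5 := a3.trans (Nat.mul_le_mul_right _ h1)
  rw [un, sz_prod, sz_prod]
  simp only at a4 a5 ⊢
  nlinarith [Nat.zero_le (L * N), Nat.zero_le (L * N * N), Nat.zero_le (N * N)]

theorem count_le {δ : ℝ} {r q F X Y : ℕ} (hr : 1 ≤ δ * (r + 1)) (hX : 1 ≤ X)
    (hq : (q : ℝ) ≤ F * (X : ℝ) ^ (1 - δ)) (hY : X ^ r ≤ Y ^ (r + 1)) : q ≤ F * Y := by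
  have h1 : (1 : ℝ) ≤ X := by exact_mod_cast hX
  have h2 : (X : ℝ) ^ (1 - δ) ≤ Y := by
    refine le_of_pow_le_pow_left₀ (Nat.succ_ne_zero r) (Nat.cast_nonneg _) ?_
    rw [← Real.rpow_natCast, ← Real.rpow_mul (by linarith)]
    refine le_trans (Real.rpow_le_rpow_of_exponent_le h1 (z := (r : ℝ)) ?_) ?_
    · push_cast; nlinarith
    · rw [Real.rpow_natCast]; exact_mod_cast hY
  have h3 := hq.trans (mul_le_mul_of_nonneg_left h2 (Nat.cast_nonneg _))
  exact_mod_cast h3

theorem ar1 (r m : ℕ) : m ≤ (r + 1) * (2 * m + 1) := by nlinarith [Nat.zero_le (r * m)]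

theorem ar2 {L : ℕ} (M : ℕ) (hL : 2 ≤ L) : (L + 2) * (108 * M) ≤ 216 * M * L := by nlinarith

theorem ar3 {P : ℕ} (hP : 1 ≤ P) (r a : ℕ) :
    (P * 2 ^ ((r + 1) * a)) ^ r ≤ (P * 2 ^ (r * a)) ^ (r + 1) := by
  rw [mul_pow, mul_pow, ← pow_mul, ← pow_mul]
  refine Nat.mul_le_mul (Nat.pow_le_pow_right hP (by omega)) (le_of_eq ?_)
  congr 1; ring

theorem ar4 (r m : ℕ) : (r + 1) * (2 * m + 1) + 1 ≤ (m + 1) * (2 * r + 2) := by nlinarith

theorem ar5 (a b N : ℕ) :
    a * (216 * (N + 1) ^ 2) + b + N + 2 ≤ (216 * a + b + 2) * (N + 1) ^ 2 := by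
  nlinarith [Nat.zero_le (b * N), Nat.zero_le (b * N * N), Nat.zero_le (N * N)]

theorem ar6 (A M r : ℕ) :
    2 * (2 * (A * M ^ 2) ^ 2) ^ (r + 1) = 2 * (2 * A ^ 2) ^ (r + 1) * M ^ (4 * (r + 1)) := by
  rw [pow_mul, mul_assoc, ← mul_pow]; congr 2; ring

theorem ar7 (r m : ℕ) : 2 ^ ((r + 1) * (2 * m + 1) + 1) = 2 * (2 * (2 ^ m) ^ 2) ^ (r + 1) := by
  rw [← pow_mul, ← pow_succ', ← pow_mul, ← pow_succ']; congr 1; ring

theorem sp_clique_or {d : ℕ} {δ : ℝ} (hδ : 0 < δ) (h : OrRed δ pClique (pLogSat d)) :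
    SP pClique := by
  obtain ⟨R, f0, g, hR, hf0, hg, hr⟩ := h
  obtain ⟨r, hδr⟩ : ∃ r : ℕ, 1 ≤ δ * (r + 1) := by
    obtain ⟨r, h1⟩ := exists_nat_gt (1 / δ)
    rw [div_lt_iff₀ hδ] at h1
    exact ⟨r, by nlinarith⟩
  obtain ⟨sim, f, c, hsim, hf, hs⟩ := hR.sim
  obtain ⟨le, hle, hle1, hle2⟩ := exists_le d
  obtain ⟨p, hp, ep⟩ := prs_inst
  obtain ⟨pl, hpl, epl⟩ : Prs (List (List Bool)) := Prs.list (Prs.list Prs.bool)
  obtain ⟨pw, hpw, epw⟩ : Prs (List Bool × List Line) := (Prs.list Prs.bool).prod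
    (Prs.list ((Prs.list Prs.nat).prod (Prs.nat.prod (Prs.nat.prod
      ((Prs.list (Prs.list Prs.nat)).prod (Prs.list (Prs.list Prs.nat)))))))
  obtain ⟨q, hq⟩ := un_pt.sz_bd
  obtain ⟨q', hq'⟩ := hsim.sz_bd
  obtain ⟨K, hK⟩ := exists_pow_bound d
  let sm : Inst → List Bool → List (List ℕ) → Bool × List Bool := fun I clk S =>
    sim (enc (un I S), clk)
  let cov : List (List Bool) → List (List Bool) → Bool := fun A B =>
    A.all fun y => B.any fun y' => le (y, y')
  let test : Inst → List Bool → List (List ℕ) → List (List ℕ) → Bool := fun I clk S S' =>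
    (sm I clk S).1 && (sm I clk S').1 && cov (pl (sm I clk S).2) (pl (sm I clk S').2)
  have k1 : PT fun a : (List (List Bool) × List Bool) × List Bool => (a.1.2, a.2) :=
    PT.pair (PT.snd PT.fst') PT.snd'
  have k2 : PT fun a : List (List Bool) × List Bool => a.1.any fun y' => le (a.2, y') :=
    PT.any (P := fun (a : List (List Bool) × List Bool) (y' : List Bool) => le (a.2, y'))
      PT.fst' (PT.comp hle k1 :)
  have k3 : PT fun a : (List (List Bool) × List (List Bool)) × List Bool => (a.1.2, a.2) :=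
    PT.pair (PT.snd PT.fst') PT.snd'
  have hcov : PT fun a : List (List Bool) × List (List Bool) => cov a.1 a.2 :=
    PT.all (P := fun (a : List (List Bool) × List (List Bool)) (y : List Bool) =>
      a.2.any fun y' => le (y, y')) PT.fst' (PT.comp k2 k3 :)
  have hsm : PT fun a : (Inst × List Bool) × List (List ℕ) => sm a.1.1 a.1.2 a.2 :=
    PT.comp hsim (PT.pair (PT.comp PT.encList (PT.comp un_pt
      (PT.pair (PT.fst PT.fst') PT.snd'))) (PT.snd PT.fst'))
  have hI : PT fun a : List Bool × List Bool => p a.1 := PT.comp hp PT.fst'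
  have hW : PT fun a : List Bool × List Bool => pw a.2 := PT.comp hpw PT.snd'
  have h0 : PT fun a : (List Bool × List Bool) × List (List ℕ) × List (List ℕ) =>
      (p a.1.1, (pw a.1.2).1) := PT.comp (PT.pair hI (PT.fst hW)) PT.fst'
  have h1 := PT.comp hsm (PT.pair h0 (PT.fst PT.snd'))
  have h2 := PT.comp hsm (PT.pair h0 (PT.snd PT.snd'))
  have hrun := run_pt (test := fun a : List Bool × List Bool => test (p a.1) (pw a.2).1)
    (PT.fst (PT.snd hI)) (PT.snd (PT.snd hI))
    (PT.and (PT.and (PT.fst h1) (PT.fst h2)) (PT.comp hcov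
      (PT.pair (PT.comp hpl (PT.snd h1)) (PT.comp hpl (PT.snd h2))) :))
    (PT.snd hW)
  have b1 : Bd (fun z => z) fun z => q.eval (2 * z + 1 + (z + 1) * (2 * z + 1)) :=
    ((((Bd.const 2).mul Bd.self).add (Bd.const 1)).add ((Bd.self.add (Bd.const 1)).mul
      (((Bd.const 2).mul Bd.self).add (Bd.const 1)))).eval q
  have b2 := Bd.self.mul ((b1.add (Bd.const 1)).pow c)
  obtain ⟨e, he⟩ := (((((Bd.const 6).mul b1).add (Bd.const 1)).add
    ((Bd.const 3).mul b2)).eval q').le_pow
  obtain ⟨e', he'⟩ := ((((Bd.const 6).mul b2).add (Bd.const 1)).add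
    (((Bd.const 1).add (((Bd.const 3).mul Bd.self).mul Bd.self)).mul (((Bd.const 2).mul
      ((((Bd.const 6).mul Bd.self).add (Bd.const 4)).add ((Bd.const 3).mul
        ((Bd.self.add (Bd.const 1)).mul (((Bd.const 2).mul Bd.self).add (Bd.const 1)))))).add
      (Bd.const 1)))).le_pow
  let thr : ℕ → ℕ := fun k => (4 * g k * ((2 * r + 2) * e) + 1) ^ d * K + 1
  have hthr : Computable thr := computable_add (computable_mul
      (computable_pow (computable_add (computable_mul (computable_mul (Computable.const 4) hg)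
        (Computable.const _)) (Computable.const 1)) d) (Computable.const K)) (Computable.const 1)
  let A0 : ℕ → ℕ := fun k => 2 ^ (thr k + 1) * (216 * f0 k + f k + 2)
  have hA0 : Computable A0 := computable_mul (computable_two_pow (computable_add hthr
    (Computable.const 1))) (computable_add (computable_add (computable_mul (Computable.const _)
      hf0) hf) (Computable.const 2))
  refine ⟨fun a => !decide (enc (p a.1) = a.1) || (decide (1 ≤ (p a.1).2.2) &&
      decide ((p a.1).1 ∈ (pw a.2).2.foldl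
        (step (p a.1).2.1 (p a.1).2.2 (test (p a.1) (pw a.2).1)) [])),
    fun k => (2 * (2 * A0 k ^ 2) ^ (r + 1)) ^ e', 4 * (r + 1) * e',
    PT.or (PT.not (PT.eq (PT.comp PT.encList hI) PT.fst'))
      (PT.and (PT.le (PT.const 1) (PT.snd (PT.snd hI))) (ptMem (PT.fst hI) hrun)),
    computable_pow (computable_mul (Computable.const 2) (computable_pow
      (computable_mul (Computable.const 2) (computable_pow hA0 2)) _)) e', ?_, ?_⟩
  · rintro x w hw ⟨I, rfl, hyes⟩
    have e0 : bitEncode I = enc I := rfl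
    simp only [e0, ep, decide_true, Bool.not_true, Bool.false_or, Bool.and_eq_true,
      decide_eq_true_eq] at hw
    refine run_sound (E := I.2.1) (k := I.2.2) (test := test I (pw w).1) ?_ _ [] (by simp) _
      hw.2 hyes
    intro S S' ht hS' Y hY hY'
    simp only [test, sm, Bool.and_eq_true] at ht
    obtain ⟨⟨h3, h4⟩, h5⟩ := ht
    rw [(hs _ _).2 h3, (hs _ _).2 h4] at h5
    have e1 : ∀ l : List (List Bool), pl (bitEncode l) = l := epl
    simp only [e1, cov, List.all_eq_true, List.any_eq_true] at h5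
    obtain ⟨y, hy, hy'⟩ := (hr _).1.1 ((mem_coded _ _ _).2 ((yes_un I hw.1 S).2 ⟨Y, hY, hY'⟩))
    obtain ⟨y', h6, h7⟩ := h5 y hy
    refine hle1 _ _ h7 (fun h8 => ?_) hy'
    obtain ⟨Z, hZ, hZ'⟩ := (yes_un I hw.1 S').1 ((mem_coded _ _ _).1 ((hr _).1.2 ⟨y', h6, h8⟩))
    exact hS' Z hZ hZ'
  · intro x hx
    by_cases hval : enc (p x) = x
    swap
    · exact ⟨[], by simp, by simp [hval]⟩
    obtain ⟨⟨V, E, k⟩, rfl⟩ : ∃ I : Inst, enc I = x := ⟨_, hval⟩
    have hno : ¬ Yes (V, E, k) := fun h => hx ((mem_coded _ _ _).2 h)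
    have hk : 1 ≤ k := by
      by_contra h0
      obtain rfl : k = 0 := by omega
      exact hno ⟨∅, by simp, by simp⟩
    have hκ : ∀ S, pClique.κ (enc (un (V, E, k) S)) = k := fun S => κ_coded _ _ _
    have hκ' : pClique.κ (enc ((V, E, k) : Inst)) = k := κ_coded _ _ _
    set N := sz ((V, E, k) : Inst) with hN
    have hVN : sz V ≤ N := by rw [hN, sz_prod]; omega
    set P0 := 216 * (N + 1) ^ 2 with hP0
    have hP1 : 1 ≤ P0 := by have := Nat.one_le_pow 2 (N + 1) (by omega); omega
    set m0 := thr k + (f0 k * P0 + f k + N + 2).size with hm0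
    set j := (r + 1) * (2 * m0 + 1) with hj
    set L := 2 ^ j with hL
    set z := f k + L + N + 2 with hz
    have h3' : f0 k * P0 + f k + N + 2 < 2 ^ m0 :=
      (Nat.lt_size_self _).trans_le (Nat.pow_le_pow_right (by norm_num) (by omega))
    have h3 : f k + N + 2 < L :=
      (lt_of_le_of_lt (by omega) h3').trans_le (Nat.pow_le_pow_right (by norm_num)
        (ar1 r m0))
    have h4 : z ≤ 2 ^ (j + 1) := by rw [pow_succ]; omega
    set u := q.eval (2 * z + 1 + (z + 1) * (2 * z + 1)) with hu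
    set clk := List.replicate (z * (u + 1) ^ c) true with hclk
    set n₀ := g k * ((m0 + 1) * ((2 * r + 2) * e)) with hn₀
    set q0 := f0 k * (P0 * 2 ^ (r * (2 * m0 + 1))) with hq0
    obtain ⟨lab, hlab⟩ := hle2 n₀
    have key : ∀ S : List (List ℕ), S.length ≤ L + 1 → (∀ Y ∈ S, Y.Sublist V) →
        (sm (V, E, k) clk S).1 = true ∧ (pl (sm (V, E, k) clk S).2).length ≤ q0 ∧
          ∀ y ∈ pl (sm (V, E, k) clk S).2, ∀ φ : CNF, enc φ = y → nvars φ ≤ n₀ := by
      intro S h5 h6
      have h7 : sz S ≤ (z + 1) * (2 * z + 1) :=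
        (sz_le_of_forall z S fun Y hY => (sz_le_of_sublist (h6 Y hY)).trans (by omega)).trans
          (Nat.mul_le_mul_right _ (by omega))
      have h8 : (enc (un (V, E, k) S)).length ≤ u :=
        (hq ((V, E, k), S)).trans (eval_mono q (by rw [sz_prod, ← hN]; omega))
      have h9 := (hs (enc (un (V, E, k) S)) clk).1 (by
        rw [hκ, hclk, List.length_replicate]
        exact Nat.mul_le_mul (by omega) (Nat.pow_le_pow_left (by omega) c))
      have h10 := (hs (enc (un (V, E, k) S)) clk).2 h9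
      have h10' : pl (sm (V, E, k) clk S).2 = R (enc (un (V, E, k) S)) := by
        simp only [sm, h10]
        exact epl _
      rw [h10']
      obtain ⟨-, h11, h11'⟩ := hr (enc (un (V, E, k) S))
      rw [hκ] at h11 h11'
      refine ⟨h9, ?_, fun y hy φ hφ => ?_⟩
      · refine count_le (X := (enc (un (V, E, k) S)).length + 1) hδr (by omega)
          (by exact_mod_cast h11') ?_
        have a1 := sz_un_le (L := L) hN.ge h5 h6
        have a2 : (enc (un (V, E, k) S)).length + 1 ≤ P0 * L :=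
          a1.trans (ar2 _ (by omega))
        exact (Nat.pow_le_pow_left a2 r).trans (ar3 hP1 r _)
      · have h11'' := h11 y hy
        rw [← hφ] at h11''
        refine (nvars_le (j := (j + 1) * e) ((κ_coded _ _ φ).symm.le.trans h11'') ?_).trans
          (Nat.mul_le_mul_left _ ?_)
        · have h12 := hq' (enc (un (V, E, k) S), clk)
          have h13 : sz (sim (enc (un (V, E, k) S), clk)) =
              2 * 1 + 1 + 3 * sz (R (enc (un (V, E, k) S))) := by
            rw [sz, sz, show enc (R (enc (un (V, E, k) S))) =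
              (sim (enc (un (V, E, k) S), clk)).2 from h10.symm, ← PT.sz_listBool]
            exact sz_prod (sim (enc (un (V, E, k) S), clk)).1 (sim (enc (un (V, E, k) S), clk)).2
          have h14 := eval_mono q' (show sz ((enc (un (V, E, k) S), clk) :
              List Bool × List Bool) ≤ 6 * u + 1 + 3 * (z * (u + 1) ^ c) by
            rw [sz_prod, PT.sz_listBool, PT.sz_listBool, hclk, List.length_replicate]; omega)
          have h15 := he z (by omega)
          have h16 := Nat.pow_le_pow_left h4 e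
          have h17 := sz_le_of_mem hy
          rw [← hφ, PT.sz_listBool] at h17
          rw [← pow_mul] at h16
          simp only [← hu] at h12 h15
          change (enc φ).length ≤ _
          omega
        · rw [← mul_assoc]
          exact Nat.mul_le_mul_right _ (ar4 r m0)
    obtain ⟨P, hP1', hP2, hP3⟩ := complete (E := E) (k := k) (test := test (V, E, k) clk)
      (V := V) (L := L) hk (by
        intro T hT hTV
        obtain ⟨S, hS, S', hS', X, hX, hX', hl⟩ := collide (L := L)
          (Λ := Fin q0 → Option (Bool × Set (Fin d → Option (Fin n₀ × Bool)))) (by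
            rw [Fintype.card_fun, Fintype.card_option, card_labels, Fintype.card_fin]
            have a1 : (2 * n₀ + 1) ^ d < 2 ^ m0 := numeric hK (by simp only [hm0, thr]; omega)
            have a2 : 2 ^ ((2 * n₀ + 1) ^ d + 1) + 1 ≤ 2 ^ (2 * 2 ^ m0) := by
              have a3 : 1 ≤ 2 ^ ((2 * n₀ + 1) ^ d + 1) := Nat.one_le_two_pow
              calc 2 ^ ((2 * n₀ + 1) ^ d + 1) + 1 ≤ 2 ^ ((2 * n₀ + 1) ^ d + 1 + 1) := by
                    rw [pow_succ 2 (_ + 1)]; omega
                _ ≤ _ := Nat.pow_le_pow_right (by norm_num) (by omega)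
            refine (Nat.pow_le_pow_left a2 q0).trans_lt ?_
            rw [← pow_mul]
            refine Nat.pow_lt_pow_right (by norm_num) (Nat.lt_succ_of_le ?_)
            have a4 : f0 k * P0 ≤ 2 ^ m0 := by omega
            calc 2 * 2 ^ m0 * q0 = 2 * 2 ^ m0 * (f0 k * P0) * 2 ^ (r * (2 * m0 + 1)) := by
                  rw [hq0]; ring
              _ ≤ 2 * 2 ^ m0 * 2 ^ m0 * 2 ^ (r * (2 * m0 + 1)) :=
                  Nat.mul_le_mul_right _ (Nat.mul_le_mul_left _ a4)
              _ = L := by rw [hL, hj]; ring) T hT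
          fun S i => ((pl (sm (V, E, k) clk S.toList).2).map lab)[i.val]?
        have h5 : ∀ S ⊆ T, S.toList.length ≤ L + 1 ∧ ∀ Y ∈ S.toList, Y.Sublist V :=
          fun S hS => ⟨by rw [Finset.length_toList, ← hT]; exact Finset.card_le_card hS,
            fun Y hY => hTV Y (hS (Finset.mem_toList.1 hY))⟩
        obtain ⟨h6, h6', -⟩ := key _ (h5 S hS).1 (h5 S hS).2
        obtain ⟨h7, h7', h8⟩ := key _ (h5 S' hS').1 (h5 S' hS').2
        refine ⟨S, hS, S', hS', X, hX, hX', ?_⟩
        have h9 : (pl (sm (V, E, k) clk S.toList).2).map lab =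
            (pl (sm (V, E, k) clk S'.toList).2).map lab := by
          apply List.ext_getElem?
          intro i
          by_cases hi : i < q0
          · exact congrFun hl ⟨i, hi⟩
          · rw [List.getElem?_eq_none (by rw [List.length_map]; omega),
              List.getElem?_eq_none (by rw [List.length_map]; omega)]
        simp only [test, h6, h7, Bool.and_self, Bool.true_and, cov, List.all_eq_true,
          List.any_eq_true]
        intro y hy
        obtain ⟨y', h10, h11⟩ := List.mem_map.1 (h9 ▸ List.mem_map_of_mem (f := lab) hy)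
        exact ⟨y', h10, hlab _ _ (h8 y' h10) h11.symm⟩) V.length {V}
      (by simpa using hno)
    refine ⟨enc (clk, P), ?_, ?_⟩
    · have h5 := sz_le_of_forall _ P hP2
      have h6 := length_le_sz V
      have h7 : P.length ≤ 1 + 3 * z * z := by
        refine hP1'.trans ?_
        rw [Finset.card_singleton]
        exact Nat.add_le_add_left (Nat.mul_le_mul (by omega) (by omega)) 1
      have h8 : (L + 1) * (2 * sz V + 1) ≤ (z + 1) * (2 * z + 1) :=
        Nat.mul_le_mul (by omega) (by omega)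
      have h9 := h5.trans (Nat.mul_le_mul h7 (show _ ≤ 2 * (6 * z + 4 + 3 *
        ((z + 1) * (2 * z + 1))) + 1 by omega))
      have h10 := he' z (by omega)
      have h11 : z ≤ 2 * (2 * A0 k ^ 2) ^ (r + 1) * (N + 1) ^ (4 * (r + 1)) := by
        refine h4.trans ?_
        set w := f0 k * P0 + f k + N + 2 with hw
        have h12 : 2 ^ w.size ≤ 2 * w := by
          have h13 : 0 < w.size := Nat.size_pos.2 (by omega)
          have h14 := (Nat.lt_size (m := w.size - 1) (n := w)).1 (by omega)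
          rw [show w.size = w.size - 1 + 1 by omega, pow_succ]
          omega
        have h13 : w ≤ (216 * f0 k + f k + 2) * (N + 1) ^ 2 := ar5 _ _ _
        have h14 : 2 ^ m0 ≤ A0 k * (N + 1) ^ 2 := by
          calc 2 ^ m0 = 2 ^ thr k * 2 ^ w.size := by rw [hm0, pow_add]
            _ ≤ 2 ^ thr k * (2 * ((216 * f0 k + f k + 2) * (N + 1) ^ 2)) :=
                Nat.mul_le_mul_left _ (h12.trans (Nat.mul_le_mul_left _ h13))
            _ = _ := by simp only [A0]; ring
        calc 2 ^ (j + 1) = 2 * (2 * (2 ^ m0) ^ 2) ^ (r + 1) := ar7 r m0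
          _ ≤ 2 * (2 * (A0 k * (N + 1) ^ 2) ^ 2) ^ (r + 1) := by gcongr
          _ = _ := ar6 _ _ _
      have h12 := Nat.pow_le_pow_left h11 e'
      change sz (clk, P) ≤ _ * (N + 1) ^ (4 * (r + 1) * e')
      rw [sz_prod, PT.sz_listBool, hclk, List.length_replicate, hκ', pow_mul (N + 1), ← mul_pow]
      simp only [← hu] at h10
      omega
    · have := hP3 [] (by simp) V (by simp)
      simp only [ep, epw, hk, this, decide_true, Bool.and_self, Bool.or_true]

end Pool.Agent.Lib.MP_ddf912_lc.Hier
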