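import Pool.Agent.Lib.MP_ddf912_lc.Main

namespace Pool.Agent.Lib.MP_ddf912_lc.Hier

open Turing N487b59b3 N68a2faeb Pool.Agent.Lib.helper82

abbrev Node := List (ℕ × Bool)
abbrev Slots := List (List ℕ × Node)
abbrev Ln := Node × ℕ × Slots × Slots

/-- The formula has a model extending the given list of literals. -/
def YesN (φ : CNF) (ρ : Node) : Prop :=
  ∃ a : ℕ → Bool, (∀ C ∈ φ, ∃ l ∈ C, a l.1 = l.2) ∧ ∀ l ∈ ρ, a l.1 = l.2

section System
variable (φ : CNF) (test : Slots → Slots → Bool)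

def just (acc : List Node) (l : Ln) : Bool :=
  (φ.any fun C => C.all fun x => decide ((x.1, !x.2) ∈ l.1)) ||
  (l.1.any fun x => decide ((x.1, !x.2) ∈ l.1)) ||
  (decide (((l.2.1, true) :: l.1) ∈ acc) && decide (((l.2.1, false) :: l.1) ∈ acc)) ||
  (decide (l.1 ∈ l.2.2.1.map Prod.snd) &&
    ((l.2.2.2.map Prod.snd).all fun Y => decide (Y ∈ acc)) && test l.2.2.1 l.2.2.2)

def step (acc : List Node) (l : Ln) : List Node :=
  bif just φ test acc l then l.1 :: acc else acc

variable {φ test}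

theorem just_sound
    (ht : ∀ S S', test S S' = true → (∀ Y ∈ S'.map Prod.snd, ¬ YesN φ Y) →
      ∀ Y ∈ S.map Prod.snd, ¬ YesN φ Y)
    {acc : List Node} (hacc : ∀ Y ∈ acc, ¬ YesN φ Y) {l : Ln}
    (h : just φ test acc l = true) : ¬ YesN φ l.1 := by
  obtain ⟨X, v, S, S'⟩ := l
  simp only [just, Bool.or_eq_true, Bool.and_eq_true, decide_eq_true_eq, List.all_eq_true,
    List.any_eq_true] at h
  rcases h with ((⟨C, hC, h⟩ | ⟨x, hx, h⟩) | ⟨h1, h2⟩) | ⟨⟨h1, h2⟩, h3⟩
  · rintro ⟨a, ha, hρ⟩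
    obtain ⟨l, hl, e⟩ := ha C hC
    have := hρ _ (h l hl)
    simp only [e] at this
    cases hb : l.2 <;> simp [hb] at this
  · rintro ⟨a, -, hρ⟩
    have h1 := hρ _ hx
    have h2 := hρ _ h
    simp only [h1] at h2
    cases hb : x.2 <;> simp [hb] at h2
  · rintro ⟨a, ha, hρ⟩
    cases hv : a v
    · refine hacc _ h2 ⟨a, ha, fun l hl => ?_⟩
      rcases List.mem_cons.1 hl with rfl | hl
      · exact hv
      · exact hρ l hl
    · refine hacc _ h1 ⟨a, ha, fun l hl => ?_⟩
      rcases List.mem_cons.1 hl with rfl | hl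
      · exact hv
      · exact hρ l hl
  · exact ht S S' h3 (fun Y hY => hacc Y (h2 Y hY)) X h1

theorem run_sound
    (ht : ∀ S S', test S S' = true → (∀ Y ∈ S'.map Prod.snd, ¬ YesN φ Y) →
      ∀ Y ∈ S.map Prod.snd, ¬ YesN φ Y) :
    ∀ (P : List Ln) (acc : List Node), (∀ Y ∈ acc, ¬ YesN φ Y) →
      ∀ Y ∈ P.foldl (step φ test) acc, ¬ YesN φ Y := by
  intro P
  induction P with
  | nil => exact fun acc h => h
  | cons l P ih =>
    intro acc h
    refine ih _ ?_
    unfold step
    cases e : just φ test acc l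
    · exact h
    · intro Y hY
      rcases List.mem_cons.1 hY with rfl | hY
      · exact just_sound ht h e
      · exact h Y hY

theorem mem_run : ∀ (P : List Ln) (acc : List Node), ∀ Y ∈ acc,
    Y ∈ P.foldl (step φ test) acc := by
  intro P
  induction P with
  | nil => exact fun acc Y h => h
  | cons l P ih =>
    intro acc Y h
    refine ih _ _ ?_
    unfold step
    cases just φ test acc l
    · exact h
    · exact List.mem_cons_of_mem _ h

variable (φ test)

/-- From the nodes in `A` one derives those in `B` by at most `t` lines of size at most `b`. -/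
def Ext (b : ℕ) (A B : Finset Node) (t : ℕ) : Prop :=
  ∃ P : List Ln, P.length ≤ t ∧ (∀ l ∈ P, sz l ≤ b) ∧
    ∀ acc : List Node, (∀ X ∈ A, X ∈ acc) → ∀ X ∈ B, X ∈ P.foldl (step φ test) acc

variable {φ test} {b : ℕ}

theorem Ext.trans {A B C : Finset Node} {t t' : ℕ} (h : Ext φ test b A B t)
    (h' : Ext φ test b B C t') : Ext φ test b A C (t + t') := by
  obtain ⟨P, h1, h2, h3⟩ := h
  obtain ⟨P', h1', h2', h3'⟩ := h'
  refine ⟨P ++ P', by simp; omega, fun l hl => (List.mem_append.1 hl).elim (h2 l) (h2' l),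
    fun acc hacc => ?_⟩
  rw [List.foldl_append]
  exact h3' _ (h3 acc hacc)

theorem Ext.mono {A B : Finset Node} {t t' : ℕ} (h : Ext φ test b A B t) (ht : t ≤ t') :
    Ext φ test b A B t' := by
  obtain ⟨P, h1, h2, h3⟩ := h
  exact ⟨P, h1.trans ht, h2, h3⟩

theorem Ext.lines (A B : Finset Node) (h : ∀ X ∈ B, X ∈ A ∨ ∃ l : Ln, l.1 = X ∧ sz l ≤ b ∧
    ∀ acc : List Node, (∀ Y ∈ A, Y ∈ acc) → just φ test acc l = true) :
    Ext φ test b A B (B \ A).card := by
  induction B using Finset.induction_on with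
  | empty => exact ⟨[], by simp, by simp, by simp⟩
  | insert X B hX ih =>
    obtain ⟨P, h1, h2, h3⟩ := ih fun Y hY => h Y (Finset.mem_insert_of_mem hY)
    by_cases hA : X ∈ A
    · refine ⟨P, by rwa [Finset.insert_sdiff_of_mem _ hA], h2, fun acc hacc Y hY => ?_⟩
      rcases Finset.mem_insert.1 hY with rfl | hY
      · exact mem_run _ _ _ (hacc _ hA)
      · exact h3 acc hacc Y hY
    · obtain ⟨l, rfl, h4, h5⟩ := (h X (Finset.mem_insert_self _ _)).resolve_left hA
      refine ⟨P ++ [l], ?_, ?_, fun acc hacc Y hY => ?_⟩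
      · rw [Finset.insert_sdiff_of_notMem _ hA, Finset.card_insert_of_notMem (by simp [hX])]
        simpa using h1
      · intro l' hl'
        rcases List.mem_append.1 hl' with h6 | h6
        · exact h2 _ h6
        · rwa [List.mem_singleton.1 h6]
      · rw [List.foldl_append, List.foldl_cons, List.foldl_nil, step,
          h5 _ fun Y hY => mem_run _ _ _ (hacc Y hY), cond_true]
        rcases Finset.mem_insert.1 hY with rfl | hY
        · exact List.mem_cons_self
        · exact List.mem_cons_of_mem _ (h3 acc hacc Y hY)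

/-- Nodes built from at most `nvars` literals on variables of the formula. -/
def Good (φ : CNF) (Y : Node) : Prop := Y.length ≤ nvars φ ∧ ∀ l ∈ Y, l.1 ∈ vars φ

theorem prune {W : ℕ}
    (ht : ∀ T : Finset Node, T.card = W + 1 → (∀ Y ∈ T, Good φ Y) →
      ∃ X ∈ T, ∃ l : Ln, l.1 = X ∧ sz l ≤ b ∧
        ∀ acc : List Node, (∀ Y ∈ T.erase X, Y ∈ acc) → just φ test acc l = true) :
    ∀ (n : ℕ) (A : Finset Node), A.card ≤ n → (∀ Y ∈ A, Good φ Y) → ∃ B ⊆ A, B.card ≤ W ∧
      Ext φ test b B A n := by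
  intro n
  induction n with
  | zero =>
    intro A hA _
    exact ⟨A, subset_rfl, by omega, [], le_rfl, by simp, fun acc h => h⟩
  | succ n ih =>
    intro A hA hV
    by_cases hL : A.card ≤ W
    · exact ⟨A, subset_rfl, hL, [], by simp, by simp, fun acc h => h⟩
    obtain ⟨T, hT, hTc⟩ := Finset.exists_subset_card_eq (show W + 1 ≤ A.card by omega)
    obtain ⟨X, hX, l, hl1, hl2, hl3⟩ := ht T hTc fun Y hY => hV Y (hT hY)
    have hXA : X ∈ A := hT hX
    obtain ⟨B, h1, h2, h3⟩ := ih (A.erase X) (by rw [Finset.card_erase_of_mem hXA]; omega)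
      fun Y hY => hV Y (Finset.mem_of_mem_erase hY)
    refine ⟨B, h1.trans (Finset.erase_subset _ _), h2, h3.trans ((Ext.lines _ _ ?_).mono ?_)⟩
    · intro Y hY
      by_cases e : Y = X
      · subst e
        exact Or.inr ⟨l, hl1, hl2, fun acc hacc => hl3 acc fun Z hZ =>
          hacc Z (Finset.erase_subset_erase _ hT hZ)⟩
      · exact Or.inl (Finset.mem_erase.2 ⟨e, hY⟩)
    · rw [Finset.sdiff_erase hXA]; simp

theorem leaf {X : Node} (hno : ¬ YesN φ X) (hall : ∀ v ∈ vars φ, ∃ c, (v, c) ∈ X)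
    (acc : List Node) : just φ test acc (X, 0, [], []) = true := by
  classical
  simp only [just, Bool.or_eq_true, Bool.and_eq_true, decide_eq_true_eq, List.all_eq_true,
    List.any_eq_true]
  by_cases h1 : ∃ x ∈ X, (x.1, !x.2) ∈ X
  · exact Or.inl (Or.inl (Or.inr h1))
  refine Or.inl (Or.inl (Or.inl ?_))
  by_contra h2
  apply hno
  have ha : ∀ l ∈ X, decide ((l.1, true) ∈ X) = l.2 := by
    rintro ⟨v, c⟩ hl
    cases c
    · exact decide_eq_false fun h => h1 ⟨(v, false), hl, h⟩
    · exact decide_eq_true hl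
  refine ⟨fun v => decide ((v, true) ∈ X), fun C hC => ?_, ha⟩
  by_contra h3
  refine h2 ⟨C, hC, fun x hx => ?_⟩
  obtain ⟨c, hc⟩ := hall x.1 (mem_vars hC hx)
  have h4 := ha _ hc
  have h5 : c ≠ x.2 := fun e => h3 ⟨x, hx, e ▸ h4⟩
  have h6 : c = !x.2 := by
    revert h5; cases c <;> cases x.2 <;> simp
  exact h6 ▸ hc

theorem complete {W : ℕ}
    (hb : ∀ X v, Good φ X → (v = 0 ∨ v ∈ vars φ) → sz ((X, v, [], []) : Ln) ≤ b)
    (ht : ∀ T : Finset Node, T.card = W + 1 → (∀ Y ∈ T, Good φ Y) →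
      ∃ X ∈ T, ∃ l : Ln, l.1 = X ∧ sz l ≤ b ∧
        ∀ acc : List Node, (∀ Y ∈ T.erase X, Y ∈ acc) → just φ test acc l = true) :
    ∀ (rem : List ℕ), (∀ v ∈ rem, v ∈ vars φ) → ∀ (A : Finset Node),
      (∀ Y ∈ A, Y.length + rem.length ≤ nvars φ ∧ (∀ l ∈ Y, l.1 ∈ vars φ) ∧ ¬ YesN φ Y ∧
        ∀ v ∈ vars φ, v ∈ rem ∨ ∃ c, (v, c) ∈ Y) →
      Ext φ test b ∅ A (A.card + 3 * W * rem.length) := by
  intro rem
  induction rem with
  | nil =>
    intro _ A hA
    refine (Ext.lines _ _ fun X hX => Or.inr ?_).mono (by simp)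
    obtain ⟨h1, h2, h3, h4⟩ := hA X hX
    exact ⟨(X, 0, [], []), rfl, hb X 0 ⟨by simpa using h1, h2⟩ (Or.inl rfl), fun acc _ =>
      leaf h3 (fun v hv => (h4 v hv).resolve_left (by simp)) acc⟩
  | cons v rem ih =>
    intro hrem A hA
    have hG : ∀ Y ∈ A, Good φ Y := fun Y hY => ⟨by have := (hA Y hY).1; omega, (hA Y hY).2.1⟩
    obtain ⟨B, hB, hBc, h1⟩ := prune (test := test) ht A.card A le_rfl hG
    let C := B.image (fun X => (v, true) :: X) ∪ B.image fun X => (v, false) :: X
    have hC : C.card ≤ 2 * W := by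
      have h3 := Finset.card_union_le (B.image fun X => (v, true) :: X)
        (B.image fun X => (v, false) :: X)
      have h4 : (B.image fun X => (v, true) :: X).card ≤ B.card := Finset.card_image_le
      have h5 : (B.image fun X => (v, false) :: X).card ≤ B.card := Finset.card_image_le
      simp only [C]; omega
    have hv : v ∈ vars φ := hrem v List.mem_cons_self
    have h3 := ih (fun u hu => hrem u (List.mem_cons_of_mem _ hu)) C (by
      have : ∀ X ∈ B, ∀ c : Bool, ((v, c) :: X).length + rem.length ≤ nvars φ ∧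
          (∀ l ∈ (v, c) :: X, l.1 ∈ vars φ) ∧ ¬ YesN φ ((v, c) :: X) ∧
          ∀ u ∈ vars φ, u ∈ rem ∨ ∃ c', (u, c') ∈ (v, c) :: X := by
        intro X hX c
        obtain ⟨h4, h5, h6, h7⟩ := hA X (hB hX)
        refine ⟨by simp only [List.length_cons] at h4 ⊢; omega, fun l hl => ?_,
          fun ⟨a, ha, hρ⟩ => h6 ⟨a, ha, fun l hl => hρ l (List.mem_cons_of_mem _ hl)⟩,
          fun u hu => ?_⟩
        · rcases List.mem_cons.1 hl with rfl | hl
          · exact hv
          · exact h5 l hl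
        · rcases h7 u hu with h8 | ⟨c', h8⟩
          · rcases List.mem_cons.1 h8 with rfl | h8
            · exact Or.inr ⟨c, List.mem_cons_self⟩
            · exact Or.inl h8
          · exact Or.inr ⟨c', List.mem_cons_of_mem _ h8⟩
      intro Y hY
      rcases Finset.mem_union.1 hY with hY | hY <;> obtain ⟨X, hX, rfl⟩ := Finset.mem_image.1 hY
      · exact this X hX _
      · exact this X hX _)
    have h4 : Ext φ test b C B (B \ C).card :=
      Ext.lines _ _ fun X hX => Or.inr (by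
        refine ⟨(X, v, [], []), rfl, hb X v (hG X (hB hX)) (Or.inr hv), fun acc hacc => ?_⟩
        have h13 := hacc _ (Finset.mem_union_left _ (Finset.mem_image_of_mem _ hX))
        have h14 := hacc _ (Finset.mem_union_right _ (Finset.mem_image_of_mem _ hX))
        simp [just, h13, h14])
    refine ((h3.trans h4).trans h1).mono ?_
    have : (B \ C).card ≤ W := (Finset.card_le_card Finset.sdiff_subset).trans hBc
    have e : 3 * W * (rem.length + 1) = 3 * W * rem.length + 3 * W := by ring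
    rw [List.length_cons]
    omega

end System

theorem run_pt {γ : Type} [Enc γ] {φ : γ → CNF}
    {test : γ → Slots → Slots → Bool} {P : γ → List Ln} (hφ : PT φ)
    (ht : PT fun a : γ × Slots × Slots => test a.1 a.2.1 a.2.2) (hP : PT P) :
    PT fun a => (P a).foldl (step (φ a) (test a)) [] := by
  have hc : PT fun a : γ × List Node × Ln => a.1 := PT.fst'
  have hacc : PT fun a : γ × List Node × Ln => a.2.1 := PT.fst PT.snd'
  have hl : PT fun a : γ × List Node × Ln => a.2.2 := PT.snd PT.snd'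
  have hX := PT.fst hl
  have hv := PT.fst (PT.snd hl)
  have hS := PT.fst (PT.snd (PT.snd hl))
  have hS' := PT.snd (PT.snd (PT.snd hl))
  have hsnd : PT fun S : Slots => S.map Prod.snd :=
    PT.map (F := fun (_ : Slots) (e : List ℕ × Node) => e.2) PT.id (PT.snd PT.snd')
  have hneg : PT fun a : Node × (ℕ × Bool) => decide ((a.2.1, !a.2.2) ∈ a.1) :=
    ptMem (PT.pair (PT.fst PT.snd') (PT.not (PT.snd PT.snd'))) PT.fst'
  have hp1 : PT fun a : (Node × Node) × (ℕ × Bool) => (a.1.1, a.2) :=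
    PT.pair (PT.fst PT.fst') PT.snd'
  have hcl : PT fun a : Node × Node => a.2.all fun x => decide ((x.1, !x.2) ∈ a.1) :=
    PT.all (P := fun (a : Node × Node) (x : ℕ × Bool) => decide ((x.1, !x.2) ∈ a.1)) PT.snd'
      (PT.comp hneg hp1 :)
  have hp2 : PT fun a : (CNF × Node) × Node => (a.1.2, a.2) := PT.pair (PT.snd PT.fst') PT.snd'
  have h1 : PT fun a : CNF × Node =>
      a.1.any fun C => C.all fun x => decide ((x.1, !x.2) ∈ a.2) :=
    PT.any (P := fun (a : CNF × Node) (C : Node) => C.all fun x => decide ((x.1, !x.2) ∈ a.2))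
      PT.fst' (PT.comp hcl hp2 :)
  have h2 : PT fun X : Node => X.any fun x => decide ((x.1, !x.2) ∈ X) :=
    PT.any (P := fun (X : Node) (x : ℕ × Bool) => decide ((x.1, !x.2) ∈ X)) PT.id hneg
  have hall : PT fun a : γ × List Node × Ln =>
      (a.2.2.2.2.2.map Prod.snd).all fun Y => decide (Y ∈ a.2.1) :=
    PT.all (P := fun (a : γ × List Node × Ln) Y => decide (Y ∈ a.2.1)) (PT.comp hsnd hS' :)
      (ptMem PT.snd' (PT.fst (PT.snd PT.fst')))
  have hj : PT fun a : γ × List Node × Ln => just (φ a.1) (test a.1) a.2.1 a.2.2 :=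
    PT.or (PT.or (PT.or (PT.comp h1 (PT.pair (PT.comp hφ hc) hX) :) (PT.comp h2 hX :))
      (PT.and (ptMem (PT.cons (PT.pair hv (PT.const true)) hX) hacc)
        (ptMem (PT.cons (PT.pair hv (PT.const false)) hX) hacc)))
      (PT.and (PT.and (ptMem hX (PT.comp hsnd hS :)) hall)
        (PT.comp ht (PT.pair hc (PT.pair hS hS')) :))
  refine PT.foldl_add (h := fun a => step (φ a) (test a)) hP (PT.const [])
    (PT.cond hj (PT.cons hX hacc) hacc) (fun a => 2 * sz (P a) + 1)
    (((Bd.const 2).mul hP.sz_bd).add (Bd.const 1)) ?_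
  rintro a s ⟨X, r⟩ hb
  have h1 := sz_le_of_mem hb
  rw [sz_prod] at h1
  unfold step
  cases just (φ a) (test a) s (X, r)
  · simp
  · simp only [cond_true, sz_cons]; omega

end Pool.Agent.Lib.MP_ddf912_lc.Hier
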